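import Pool.Agent.helper55.NM.Spec2

set_option autoImplicit false

namespace Pool.Agent.helper76.NMM

open Finset Nat Pool.Agent.NM

theorem FLR : FLR_stmt := by
  intro ε hε
  obtain ⟨m, hm⟩ := exists_nat_gt (1 / ε)
  refine ⟨max 6 m, fun n k hn h1 h2 => ?_⟩
  have hn6 : 6 ≤ n := le_trans (le_max_left _ _) hn
  have hnm : m ≤ n := le_trans (le_max_right _ _) hn
  have hnR : (6 : ℝ) ≤ n := by exact_mod_cast hn6
  have hmR : (m : ℝ) ≤ n := by exact_mod_cast hnm
  have h3 : 1 < ε * n := by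
    have h0 : 1 / ε < n := lt_of_lt_of_le hm hmR
    rw [div_lt_iff₀ hε] at h0
    linarith
  have h4 : (n : ℝ) + 1 < 3 * k := by nlinarith
  have h5 : (2 : ℝ) * k ≤ n := by nlinarith
  have h6 : n + 1 < 3 * k := by exact_mod_cast h4
  have h7 : 2 * k ≤ n := by exact_mod_cast h5
  exact ⟨Nat.div_eq_of_lt_le (by omega) (by omega), by omega, by omega⟩

end Pool.Agent.helper76.NMM
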